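import Pool.Agent.R556.CP.E

/-!
# MP_249059_co: permutations with prescribed positions of a consecutive pattern

For every `k ≥ 3`, every `π ∈ S_k` and every finite set `I` of positive integers there is a real
`c ≥ 0` with `p_π(I,n) = c p_π(n) (1 + O(ρ ^ n))` for some `ρ < 1`; in particular the error is
`O(n ^ (-α))` for every `α > 0`.
-/

set_option autoImplicit false

namespace Pool.Agent.Results.MP_249059_co.PrescribedPositions

/-- The word `w` (a permutation of `n` letters, positions numbered `1, ..., n`) has a consecutive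
occurrence of `π` that starts at the index `i`. -/
def IsStart {k n : ℕ} (π : Equiv.Perm (Fin k)) (w : Equiv.Perm (Fin n)) (i : ℕ) : Prop :=
  1 ≤ i ∧ i + k ≤ n + 1 ∧ ∀ (a b : Fin k) (s t : Fin n),
    (s : ℕ) + 1 = i + a → (t : ℕ) + 1 = i + b → (w s < w t ↔ π a < π b)

/-- The set `P_π(w)` of all starting indices of consecutive occurrences of `π` in `w`. -/
def starts {k n : ℕ} (π : Equiv.Perm (Fin k)) (w : Equiv.Perm (Fin n)) : Set ℕ :=
  {i | IsStart π w i}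

/-- The number `p_π(I,n)` of permutations `w` of `n` letters with `P_π(w) = I`. -/
noncomputable def count {k : ℕ} (π : Equiv.Perm (Fin k)) (I : Finset ℕ) (n : ℕ) : ℕ :=
  Nat.card {w : Equiv.Perm (Fin n) // starts π w = (I : Set ℕ)}

open R556.CP

/-- the pattern as a function on all natural numbers -/
def pat {k : ℕ} (π : Equiv.Perm (Fin k)) (a : ℕ) : ℕ := if h : a < k then (π ⟨a, h⟩ : ℕ) else 0

lemma pat_lt {k : ℕ} (π : Equiv.Perm (Fin k)) (a b : Fin k) : pat π a < pat π b ↔ π a < π b := by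
  unfold pat
  rw [dif_pos a.2, dif_pos b.2]
  exact Iff.rfl

lemma pat_inj {k : ℕ} (π : Equiv.Perm (Fin k)) : Set.InjOn (pat π) (Set.Iio k) := by
  intro a ha b hb hab
  have ha' : a < k := ha
  have hb' : b < k := hb
  unfold pat at hab
  rw [dif_pos ha', dif_pos hb'] at hab
  have := π.injective (Fin.ext hab)
  exact congrArg Fin.val this

lemma isStart_iff {K n : ℕ} (π : Equiv.Perm (Fin (K + 1))) (w : Equiv.Perm (Fin n)) {i : ℕ}
    (hi : i + (K + 1) ≤ n) :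
    IsStart π w (i + 1) ↔ RelOcc (K + 1) (pat π) n (fun s t => w s < w t) i := by
  constructor
  · rintro ⟨-, -, h⟩ a ha b hb s t hs ht
    have := h ⟨a, ha⟩ ⟨b, hb⟩ s t (by simp only []; omega) (by simp only []; omega)
    rw [← pat_lt π] at this
    exact this
  · intro h
    refine ⟨by omega, by omega, fun a b s t hs ht => ?_⟩
    rw [← pat_lt π]
    exact h a a.2 b b.2 s t (by omega) (by omega)

lemma count_eq {K n M0 : ℕ} (π : Equiv.Perm (Fin (K + 1))) (I : Finset ℕ) (hI : ∀ i ∈ I, 1 ≤ i)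
    (hM : ∀ i ∈ I, i + K ≤ M0) (hn : M0 ≤ n) :
    count π I n = cnt K (pat π) {i | i + 1 ∈ I} n := by
  unfold count cnt
  rw [Nat.card_eq_fintype_card, Fintype.card_subtype]
  congr 1
  ext w
  simp only [Finset.mem_filter, Finset.mem_univ, true_and, Set.mem_ofPred_eq]
  constructor
  · intro h i hi
    rw [← isStart_iff π w hi]
    have : i + 1 ∈ starts π w ↔ i + 1 ∈ (I : Set ℕ) := by rw [h]
    exact this
  · intro h
    ext j
    show IsStart π w j ↔ j ∈ I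
    rcases j with _ | i
    · constructor
      · rintro ⟨h1, -⟩
        omega
      · intro h0
        have := hI 0 h0
        omega
    · by_cases hi : i + (K + 1) ≤ n
      · rw [isStart_iff π w hi]
        exact h i hi
      · constructor
        · rintro ⟨-, h2, -⟩
          omega
        · intro hj
          have := hM _ hj
          omega

theorem result : ∀ (k : ℕ), 3 ≤ k → ∀ (π : Equiv.Perm (Fin k)) (I : Finset ℕ),
    (∀ i ∈ I, 1 ≤ i) →
    ∃ c : ℝ, 0 ≤ c ∧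
      (∃ (ρ C : ℝ) (n₀ : ℕ), 0 < ρ ∧ ρ < 1 ∧ ∀ n ≥ n₀,
        |(count π I n : ℝ) - c * count π ∅ n| ≤ C * ρ ^ n * (c * count π ∅ n)) ∧
      ∀ α : ℝ, 0 < α → ∃ (C : ℝ) (n₀ : ℕ), ∀ n ≥ n₀,
        |(count π I n : ℝ) - c * count π ∅ n| ≤ C * (n : ℝ) ^ (-α) * (c * count π ∅ n) := by
  intro k hk π I hI
  obtain ⟨K, rfl⟩ : ∃ K, k = K + 1 := ⟨k - 1, by omega⟩
  obtain ⟨M0, hM0⟩ : ∃ M0 : ℕ, M0 = K + I.sup id := ⟨_, rfl⟩
  have hM : ∀ i ∈ I, i + K ≤ M0 := by
    intro i hi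
    have : i ≤ I.sup id := Finset.le_sup (f := id) hi
    omega
  obtain ⟨D, ρ, c, hD, hρ0, hρ1, hc, hcl⟩ := main_cnt (K := K) (p := pat π) (by omega)
    (pat_inj π) (J := {i | i + 1 ∈ I}) (M0 := M0) (by omega)
    (fun i hi => by have := hM (i + 1) hi; omega)
  have hexp : ∀ n, M0 + (3 * K + 6) ≤ n →
      |(count π I n : ℝ) - c.toReal * count π ∅ n| ≤
        (D * Real.exp D * (ρ ^ M0)⁻¹) * ρ ^ n * (c.toReal * count π ∅ n) := by
    intro n hn
    obtain ⟨N, rfl⟩ : ∃ N, n = M0 + N := ⟨n - M0, by omega⟩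
    rw [count_eq π I hI hM (by omega), count_eq π ∅ (by simp) (by simp) (le_refl (M0 + N))]
    have he : (∅ : Set ℕ) = {i : ℕ | i + 1 ∈ (∅ : Finset ℕ)} := by ext; simp
    have h1 := hcl N (by omega)
    rw [he] at h1
    have h2 := h1.real (by positivity) hc
    refine h2.trans ?_
    have h3 : ρ ^ N ≤ 1 := pow_le_one₀ hρ0.le hρ1.le
    have h4 : Real.exp (D * ρ ^ N) ≤ Real.exp D := by
      refine Real.exp_le_exp.2 ?_
      nlinarith
    have h5 : (ρ ^ M0)⁻¹ * ρ ^ (M0 + N) = ρ ^ N := by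
      rw [pow_add]; field_simp
    have h6 : D * Real.exp D * (ρ ^ M0)⁻¹ * ρ ^ (M0 + N) = D * ρ ^ N * Real.exp D := by
      rw [mul_assoc, h5]; ring
    rw [h6]
    gcongr
  refine ⟨c.toReal, ENNReal.toReal_nonneg, ⟨ρ, _, _, hρ0, hρ1, hexp⟩, ?_⟩
  intro α hα
  -- `n ^ α * ρ ^ n` is bounded
  have hlim : Filter.Tendsto (fun n : ℕ => (n : ℝ) ^ (⌈α⌉₊ : ℕ) * ρ ^ n) Filter.atTop (nhds 0) :=
    tendsto_pow_const_mul_const_pow_of_lt_one ⌈α⌉₊ hρ0.le hρ1
  have hev : ∀ᶠ n : ℕ in Filter.atTop, (n : ℝ) ^ (⌈α⌉₊ : ℕ) * ρ ^ n < 1 :=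
    hlim.eventually (gt_mem_nhds one_pos)
  obtain ⟨n1, hn1⟩ := Filter.eventually_atTop.1 hev
  refine ⟨D * Real.exp D * (ρ ^ M0)⁻¹, max (max (M0 + (3 * K + 6)) n1) 1, fun n hn => ?_⟩
  have ha : M0 + (3 * K + 6) ≤ n := (le_max_left _ _).trans ((le_max_left _ _).trans hn)
  have hb : n1 ≤ n := (le_max_right _ _).trans ((le_max_left _ _).trans hn)
  have h1 : 1 ≤ n := (le_max_right _ _).trans hn
  refine (hexp n ha).trans ?_
  have hn0 : (1 : ℝ) ≤ n := by exact_mod_cast h1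
  have hpos : (0 : ℝ) < n := by linarith
  have h2 : ρ ^ n ≤ (n : ℝ) ^ (-α) := by
    rw [Real.rpow_neg hpos.le, ← one_div, le_div_iff₀ (Real.rpow_pos_of_pos hpos _)]
    have h3 : (n : ℝ) ^ α ≤ (n : ℝ) ^ (⌈α⌉₊ : ℕ) := by
      rw [← Real.rpow_natCast]
      exact Real.rpow_le_rpow_of_exponent_le hn0 (Nat.le_ceil α)
    calc ρ ^ n * (n : ℝ) ^ α ≤ ρ ^ n * (n : ℝ) ^ (⌈α⌉₊ : ℕ) := by gcongr
      _ = (n : ℝ) ^ (⌈α⌉₊ : ℕ) * ρ ^ n := mul_comm _ _
      _ ≤ 1 := (hn1 n hb).le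
  have h4 : 0 ≤ c.toReal * (count π ∅ n : ℝ) := by positivity
  have h5 : 0 ≤ D * Real.exp D * (ρ ^ M0)⁻¹ := by positivity
  gcongr

end Pool.Agent.Results.MP_249059_co.PrescribedPositions
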